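import Pool.Agent.H61.WG.Main

/-!
# [H61 WG Gen] THEOREM WN (MP_187c26_nt), combinatorial half with an arbitrary energy constant `E` and mixed differences of order `≥ p`

`row_const` after H72/WI/Cst.
-/

set_option autoImplicit false

open Polynomial

namespace Pool.Agent.H61.WG

open Pool.Agent.H61.WC

theorem row_const (E K p : ℕ) [Fact p.Prime] (hp : 2 * (16 * (K + 1) ^ 2 * E + K) < p) (n : ZMod p → ℤ)
    (hE : ∑ i, (n i) ^ 2 ≤ E * (p : ℤ) ^ 2) (P : (ZMod p)[X]) (hP : P.natDegree ≤ K)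
    (h : ∀ i, (n i : ZMod p) = P.eval i) : ∃ c : ℤ, ∀ i, (p : ℤ) ∣ n i - c := by
  classical
  obtain ⟨H, hH⟩ : ∃ H : ℕ, H = p / (4 * (K + 1)) := ⟨_, rfl⟩
  have hH1 : 4 * (K + 1) * H ≤ p := by rw [hH]; exact Nat.mul_div_le p _
  have hH2 : p < 4 * (K + 1) * (H + 1) := by
    rw [hH]
    exact Nat.lt_mul_div_succ p (by omega)
  -- the large values
  obtain ⟨T₀, hT₀⟩ : ∃ T₀, T₀ = 16 * (K + 1) ^ 2 * E := ⟨_, rfl⟩
  rw [← hT₀] at hp
  have h1 : (Finset.univ.filter fun i : ZMod p => ¬ |n i| ≤ (H : ℤ)).card ≤ T₀ := by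
    obtain ⟨T, hT⟩ : ∃ T, T = Finset.univ.filter fun i : ZMod p => ¬ |n i| ≤ (H : ℤ) := ⟨_, rfl⟩
    rw [← hT]
    have h2 : (T.card : ℤ) * ((H : ℤ) + 1) ^ 2 ≤ E * (p : ℤ) ^ 2 := by
      refine le_trans ?_ hE
      refine le_trans ?_ (Finset.sum_le_sum_of_subset_of_nonneg (Finset.subset_univ T) fun i _ _ => sq_nonneg (n i))
      rw [← nsmul_eq_mul]
      refine Finset.card_nsmul_le_sum T _ _ fun i hi => ?_
      rw [hT, Finset.mem_filter, not_le] at hi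
      rw [← sq_abs (n i)]
      exact pow_le_pow_left₀ (by positivity) hi.2 2
    have h3 : (p : ℤ) ^ 2 ≤ 16 * ((K : ℤ) + 1) ^ 2 * ((H : ℤ) + 1) ^ 2 := by
      have h4 : (p : ℤ) ≤ 4 * ((K : ℤ) + 1) * ((H : ℤ) + 1) := by exact_mod_cast hH2.le
      calc (p : ℤ) ^ 2 ≤ (4 * ((K : ℤ) + 1) * ((H : ℤ) + 1)) ^ 2 := pow_le_pow_left₀ (by positivity) h4 2
        _ = _ := by ring
    have h4 : (T.card : ℤ) * ((H : ℤ) + 1) ^ 2 ≤ T₀ * ((H : ℤ) + 1) ^ 2 := by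
      refine h2.trans ((mul_le_mul_of_nonneg_left h3 (Int.natCast_nonneg E)).trans (le_of_eq ?_))
      rw [hT₀]
      push_cast
      ring
    have h5 : (T.card : ℤ) ≤ T₀ := le_of_mul_le_mul_right h4 (by positivity)
    exact_mod_cast h5
  have h2 : p ≤ (Finset.univ.filter fun i : ZMod p => |n i| ≤ (H : ℤ)).card + T₀ := by
    have h3 := Finset.card_filter_add_card_filter_not (s := (Finset.univ : Finset (ZMod p))) (fun i => |n i| ≤ (H : ℤ))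
    rw [Finset.card_univ, ZMod.card] at h3
    omega
  obtain ⟨v, -, hv⟩ := Finset.exists_lt_card_fiber_of_mul_lt_card_of_maps_to (n := K)
    (s := Finset.univ.filter fun i : ZMod p => |n i| ≤ (H : ℤ)) (t := Finset.Icc (-(H : ℤ)) H) (f := n)
    (by
      intro i hi
      rw [Finset.mem_filter] at hi
      rw [Finset.mem_Icc]
      exact abs_le.1 hi.2)
    (by
      rw [Int.card_Icc]
      have : ((H : ℤ) + 1 - -(H : ℤ)).toNat = 2 * H + 1 := by omega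
      rw [this]
      have h3 : 2 * ((2 * H + 1) * K) ≤ 4 * (K + 1) * H + 2 * K := by nlinarith [Nat.zero_le (K * H)]
      omega)
  refine ⟨v, fun i => ?_⟩
  have h6 : P - C (v : ZMod p) = 0 := by
    by_contra h0
    have h7 := Polynomial.card_roots' (P - C (v : ZMod p))
    have h8 : (P - C (v : ZMod p)).natDegree ≤ K := by
      rw [Polynomial.natDegree_sub_C]; exact hP
    have h9 : (Finset.filter (fun i => n i = v) (Finset.univ.filter fun i : ZMod p => |n i| ≤ (H : ℤ))).card ≤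
        (P - C (v : ZMod p)).roots.toFinset.card := by
      refine Finset.card_le_card fun i hi => ?_
      rw [Finset.mem_filter] at hi
      rw [Multiset.mem_toFinset, Polynomial.mem_roots h0, Polynomial.IsRoot, Polynomial.eval_sub, Polynomial.eval_C,
        ← h i, hi.2, sub_self]
    have h10 := Multiset.toFinset_card_le (P - C (v : ZMod p)).roots
    omega
  rw [← ZMod.intCast_zmod_eq_zero_iff_dvd]
  push_cast
  rw [h i, sub_eq_zero.1 h6, Polynomial.eval_C, sub_self]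

/-- for ALL primes `q ≥ Q₀` -/
theorem wc_genq (b : ℕ) (hb : 2 ≤ b) (E : ℕ) : ∃ Q₀ p₀ : ℕ, ∀ q : ℕ, q.Prime → Q₀ ≤ q → ¬ q ∣ b ∧
    ∀ (p : ℕ) [Fact p.Prime], p₀ ≤ p → q < p → ∀ n m : ZMod p → ZMod p → ℤ,
      ∑ i, ∑ j, (n i j) ^ 2 ≤ E * (p : ℤ) ^ 2 → ∑ i, ∑ j, (m i j) ^ 2 ≤ E * (p : ℤ) ^ 2 →
      (∀ j, ∑ i, n i j = 0) →
      (∀ i j, (q : ℤ) ∣ m ((q : ZMod p) * i) ((q : ZMod p) * j) - (b : ℤ) ^ ((q * j.val) / p) * n i j) →
      (∀ k l : ℕ, k < p → l < p → p ≤ k + l →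
        (p : ℤ) ∣ ∑ s ∈ Finset.range (k + 1), ∑ t ∈ Finset.range (l + 1),
          (-1) ^ ((k - s) + (l - t)) * (k.choose s : ℤ) * (l.choose t : ℤ) * ((b : ℤ) ^ t * n (s : ZMod p) (t : ZMod p))) →
      ∀ j, ∃ c : ℤ, ∀ i, (p : ℤ) ∣ n i j - c := by
  obtain ⟨E', hE'⟩ : ∃ E', E' = max E 1 := ⟨_, rfl⟩
  have hE1 : 1 ≤ E' := by rw [hE']; exact le_max_right _ _
  have hE2 : E ≤ E' := by rw [hE']; exact le_max_left _ _
  obtain ⟨D, p₁, hD, hcore⟩ := wc_core b hb E' hE1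
  obtain ⟨Q₀, hsp⟩ := wc_sparseq b hb D E' hD hE1
  obtain ⟨K, hK⟩ : ∃ K, K = 8 * E' + 2 := ⟨_, rfl⟩
  refine ⟨Q₀, max p₁ (2 * (16 * (K + 1) ^ 2 * E' + K) + 1), fun q hq hqQ => ⟨(hsp q hq hqQ).1, ?_⟩⟩
  intro p _ hp₀ hqp n m h1 h2 hR hFr hCo j
  have e1 : p₁ ≤ p := le_trans (le_max_left _ _) hp₀
  have e3 : 2 * (16 * (K + 1) ^ 2 * E' + K) < p := le_trans (le_max_right _ _) hp₀
  have e4 : (E : ℤ) * (p : ℤ) ^ 2 ≤ E' * (p : ℤ) ^ 2 :=
    mul_le_mul_of_nonneg_right (by exact_mod_cast hE2) (by positivity)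
  obtain ⟨P, hP, hPe⟩ := hcore p e1 n ((hsp q hq hqQ).2 p hqp n m (h1.trans e4) (h2.trans e4) hFr) (h1.trans e4) hR hCo j
  refine row_const E' K p e3 (fun i => n i j) ?_ P (by rw [hK]; exact hP) hPe
  refine le_trans ?_ (h1.trans e4)
  refine Finset.sum_le_sum fun i _ => ?_
  exact Finset.single_le_sum (f := fun j => (n i j) ^ 2) (fun j _ => sq_nonneg _) (Finset.mem_univ j)

theorem wc_gen (b : ℕ) (hb : 2 ≤ b) (E : ℕ) : ∃ q p₀ : ℕ, q.Prime ∧ ¬ q ∣ b ∧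
    ∀ (p : ℕ) [Fact p.Prime], p₀ ≤ p → ∀ n m : ZMod p → ZMod p → ℤ,
      ∑ i, ∑ j, (n i j) ^ 2 ≤ E * (p : ℤ) ^ 2 → ∑ i, ∑ j, (m i j) ^ 2 ≤ E * (p : ℤ) ^ 2 →
      (∀ j, ∑ i, n i j = 0) →
      (∀ i j, (q : ℤ) ∣ m ((q : ZMod p) * i) ((q : ZMod p) * j) - (b : ℤ) ^ ((q * j.val) / p) * n i j) →
      (∀ k l : ℕ, k < p → l < p → p ≤ k + l →
        (p : ℤ) ∣ ∑ s ∈ Finset.range (k + 1), ∑ t ∈ Finset.range (l + 1),
          (-1) ^ ((k - s) + (l - t)) * (k.choose s : ℤ) * (l.choose t : ℤ) * ((b : ℤ) ^ t * n (s : ZMod p) (t : ZMod p))) →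
      ∀ j, ∃ c : ℤ, ∀ i, (p : ℤ) ∣ n i j - c := by
  obtain ⟨Q₀, p₀, h⟩ := wc_genq b hb E
  obtain ⟨q, hqge, hq⟩ := Nat.exists_infinite_primes Q₀
  refine ⟨q, max p₀ (q + 1), hq, (h q hq hqge).1, ?_⟩
  intro p _ hp
  exact (h q hq hqge).2 p ((le_max_left _ _).trans hp) (Nat.lt_of_succ_le ((le_max_right _ _).trans hp))

end Pool.Agent.H61.WG
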