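import Pool.Agent.H61.WC.Td

/-!
# [H61 WG New] THEOREM W (MP_187c26_nt), combinatorial half: Newton expansion

`f` a function on pairs of natural numbers `< p` whose mixed differences of order `(k, l)` at `(0, 0)` vanish for `k + l ≥ p` (`k, l < p`): it is a polynomial of total degree `≤ p - 1`.

PROOF. Newton: for `s, t < p`: `f s t = ∑_(k ≤ s) ∑_(l ≤ t) choose s k * choose t l * d k l` with `d k l` the mixed difference (Mathlib: `shift_eq_sum_fwdDiff_iter`, `fwdDiff_iter_eq_sum_shift` in `Mathlib/Algebra/Group/ForwardDiff.lean`, twice; or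
`∑_k choose s k ∑_(a ≤ k) (-1)^(k-a) choose k a x_a = x_s`). `bin k := C (1 / k!) * descPochhammer (ZMod p) k`, of degree `k`, value `choose s k` at `(s : ZMod p)` for `k < p` (`k! ≠ 0` in `ZMod p`).
`F := ∑_(k < p) ∑_(l < p) C (C (d k l) * bin k) * (bin l).map C`, terms with `k + l ≥ p` are `0`.
-/

set_option autoImplicit false

open Polynomial
open scoped Polynomial.Bivariate

namespace Pool.Agent.H61.WG

open Pool.Agent.H61.WC

section newton

variable {R : Type} [CommRing R]

private def D1 (f : ℕ → R) (k : ℕ) : R :=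
  ∑ a ∈ Finset.range (k + 1), (-1) ^ (k - a) * (k.choose a : R) * f a

private theorem newton_one (f : ℕ → R) (s : ℕ) :
    f s = ∑ k ∈ Finset.range (s + 1), (s.choose k : R) * D1 f k := by
  have h := shift_eq_sum_fwdDiff_iter (1 : ℕ) f s 0
  rw [zero_add, smul_eq_mul, mul_one] at h
  rw [h]
  refine Finset.sum_congr rfl fun k _ => ?_
  rw [fwdDiff_iter_eq_sum_shift, nsmul_eq_mul]
  congr 1
  unfold D1
  refine Finset.sum_congr rfl fun a _ => ?_
  rw [zero_add, smul_eq_mul, mul_one, zsmul_eq_mul]
  push_cast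
  ring

private theorem newton_range (f : ℕ → R) {s p : ℕ} (hs : s < p) :
    f s = ∑ k ∈ Finset.range p, (s.choose k : R) * D1 f k := by
  rw [newton_one f s]
  refine Finset.sum_subset ?_ ?_
  · intro k hk
    rw [Finset.mem_range] at hk ⊢
    omega
  · intro k _ hk
    rw [Finset.mem_range, not_lt] at hk
    rw [Nat.choose_eq_zero_of_lt (by omega), Nat.cast_zero, zero_mul]

private theorem newton_two (f : ℕ → ℕ → R) {s t p : ℕ} (hs : s < p) (ht : t < p) :
    f s t = ∑ k ∈ Finset.range p, ∑ l ∈ Finset.range p, (s.choose k : R) * (t.choose l : R) *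
      ∑ a ∈ Finset.range (k + 1), ∑ c ∈ Finset.range (l + 1),
        (-1) ^ ((k - a) + (l - c)) * (k.choose a : R) * (l.choose c : R) * f a c := by
  rw [newton_range (fun a => f a t) hs]
  refine Finset.sum_congr rfl fun k _ => ?_
  rw [newton_range (fun c => D1 (fun a => f a c) k) ht, Finset.mul_sum]
  refine Finset.sum_congr rfl fun l _ => ?_
  rw [mul_assoc]
  congr 2
  unfold D1
  rw [Finset.sum_comm]
  refine Finset.sum_congr rfl fun c _ => ?_
  rw [Finset.mul_sum]
  refine Finset.sum_congr rfl fun a _ => ?_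
  rw [pow_add]
  ring

end newton

section bin

variable (p : ℕ) [Fact p.Prime]

private noncomputable def bin (k : ℕ) : (ZMod p)[X] := C ((k.factorial : ZMod p)⁻¹) * descPochhammer (ZMod p) k

private theorem bin_deg (k : ℕ) : (bin p k).natDegree ≤ k := by
  unfold bin
  refine (natDegree_C_mul_le _ _).trans ?_
  rw [descPochhammer_natDegree]

private theorem bin_eval {k : ℕ} (hk : k < p) (s : ℕ) : (bin p k).eval (s : ZMod p) = (s.choose k : ZMod p) := by
  unfold bin
  have h0 : (k.factorial : ZMod p) ≠ 0 := by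
    intro h
    rw [ZMod.natCast_eq_zero_iff, (Fact.out : p.Prime).dvd_factorial] at h
    omega
  rw [eval_mul, eval_C, descPochhammer_eval_eq_descFactorial, Nat.descFactorial_eq_factorial_mul_choose, Nat.cast_mul,
    ← mul_assoc, inv_mul_cancel₀ h0, one_mul]

end bin

private theorem td_map {k : Type} [Field k] {N : ℕ} {f : k[X]} (h : f.natDegree ≤ N) : TD N (f.map C : k[X][Y]) := by
  intro j hj
  rw [coeff_map] at hj ⊢
  rw [natDegree_C, zero_add]
  have h1 : f.coeff j ≠ 0 := by
    intro h2
    apply hj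
    rw [h2, C_0]
  exact (le_natDegree_of_ne_zero h1).trans h

theorem wc_newton (p : ℕ) [Fact p.Prime] (f : ZMod p → ZMod p → ZMod p)
    (h : ∀ k l : ℕ, k < p → l < p → p ≤ k + l →
      ∑ s ∈ Finset.range (k + 1), ∑ t ∈ Finset.range (l + 1),
        (-1) ^ ((k - s) + (l - t)) * (k.choose s : ZMod p) * (l.choose t : ZMod p) * f (s : ZMod p) (t : ZMod p) = 0) :
    ∃ F : (ZMod p)[X][Y], TD (p - 1) F ∧ ∀ i j, F.evalEval i j = f i j := by
  obtain ⟨d, hd⟩ : ∃ d : ℕ → ℕ → ZMod p, d = fun k l => ∑ s ∈ Finset.range (k + 1), ∑ t ∈ Finset.range (l + 1),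
        (-1) ^ ((k - s) + (l - t)) * (k.choose s : ZMod p) * (l.choose t : ZMod p) * f (s : ZMod p) (t : ZMod p) :=
    ⟨_, rfl⟩
  refine ⟨∑ k ∈ Finset.range p, ∑ l ∈ Finset.range p, C (C (d k l) * bin p k) * (bin p l).map C, ?_, ?_⟩
  · refine TD.sum _ _ fun k hk => TD.sum _ _ fun l hl => ?_
    rw [Finset.mem_range] at hk hl
    by_cases hkl : p ≤ k + l
    · have h0 : d k l = 0 := by
        rw [hd]
        exact h k l hk hl hkl
      rw [h0, C_0, zero_mul, C_0, zero_mul]
      exact td_zero _
    · have h1 : TD k (C (C (d k l) * bin p k) : (ZMod p)[X][Y]) :=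
        td_C ((natDegree_C_mul_le _ _).trans (bin_deg p k))
      have h2 : TD l ((bin p l).map C : (ZMod p)[X][Y]) := td_map (bin_deg p l)
      exact (h1.mul h2).mono (by omega)
  · intro i j
    have hi : i.val < p := ZMod.val_lt i
    have hj : j.val < p := ZMod.val_lt j
    have ei : ((i.val : ℕ) : ZMod p) = i := ZMod.natCast_zmod_val i
    have ej : ((j.val : ℕ) : ZMod p) = j := ZMod.natCast_zmod_val j
    have key := newton_two (fun a c : ℕ => f (a : ZMod p) (c : ZMod p)) hi hj
    simp only [ei, ej] at key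
    rw [key, evalEval_finsetSum]
    refine Finset.sum_congr rfl fun k hk => ?_
    rw [evalEval_finsetSum]
    refine Finset.sum_congr rfl fun l hl => ?_
    rw [Finset.mem_range] at hk hl
    have e1 := bin_eval p hk i.val
    have e2 := bin_eval p hl j.val
    rw [ei] at e1
    rw [ej] at e2
    rw [evalEval_mul, evalEval_C, evalEval_map_C, eval_mul, eval_C, e1, e2, hd]
    ring

end Pool.Agent.H61.WG
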